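import Pool.Agent.helper4.QX.SpecF
import Pool.Agent.helper71.QX.DET

/-!
# Project QX, row EDT: the row DET with explicit constants
-/

set_option autoImplicit false

open scoped MatrixGroups ContDiff Topology UpperHalfPlane
open UpperHalfPlane MeasureTheory ProbabilityTheory Filter Set Polynomial
open Pool.Agent.QU Pool.Agent.RP

namespace Pool.Agent.QX

/-- a smaller power of `ε` in the denominator -/
theorem EDT_pow {ε a : ℝ} (hε : 0 < ε) (hε1 : ε ≤ 1) (ha : 0 ≤ a) {i j : ℕ} (h : i ≤ j) :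
    a / ε ^ i ≤ a / ε ^ j :=
  div_le_div_of_nonneg_left ha (pow_pos hε j) (pow_le_pow_of_le_one hε.le hε1 h)

/-- the constants -/
theorem EDT_num {C m A' AP AL sv : ℝ} {K' : ℕ} (hC : 1 ≤ C) (hm : 1 ≤ m) (hA' : 1 ≤ A') (hAP : 0 ≤ AP)
    (hAL : 0 ≤ AL) (hsv : 0 ≤ sv) : ∃ A : ℝ, 1 ≤ A ∧ 4 * C + 12 ≤ A ∧ ∀ ε : ℝ, 0 < ε → ε ≤ 1 →
    let D := 10 * C ^ 2 * (1 + m)
    let δ₁ := ε / D
    let C' := A' / δ₁ ^ K'
    let d := δ₁ / (C ^ 2 * (C' + 1))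
    let Q := (m + 1) * C ^ 2 + C' * C ^ 2 + 1
    let E₀ := 4 * Q * AL * (1 + sv)
    Q ≤ A / ε ^ (6 * K' + 6) ∧ ε ^ (6 * K' + 6) / A ≤ d ∧
      AP * E₀ ^ 2 / (δ₁ ^ 2 * d ^ 4) ≤ A / ε ^ (6 * K' + 6) := by
  have hC0 : 0 < C := by linarith
  have hC2 : 1 ≤ C ^ 2 := by nlinarith
  set D : ℝ := 10 * C ^ 2 * (1 + m) with hD
  have hD1 : 1 ≤ D := by nlinarith
  have hD0 : 0 < D := by linarith
  set X : ℝ := A' * D ^ K' with hX
  have hDK : 1 ≤ D ^ K' := one_le_pow₀ hD1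
  have hX1 : 1 ≤ X := by
    rw [hX]
    nlinarith
  set A₁ : ℝ := (m + 1) * C ^ 2 + 1 + C ^ 2 * X with hA₁
  set A₂ : ℝ := D * (C ^ 2 * (X + 1)) with hA₂
  set A₃ : ℝ := AP * (4 * A₁ * AL * (1 + sv)) ^ 2 * (D ^ 2 * A₂ ^ 4) with hA₃
  have hA₁0 : 0 < A₁ := by positivity
  have hA₂0 : 0 < A₂ := by positivity
  have hA₃0 : 0 ≤ A₃ := by positivity
  have hA0 : 0 < A₁ + A₂ + A₃ + (4 * C + 12) := by positivity
  refine ⟨A₁ + A₂ + A₃ + (4 * C + 12), by linarith, by linarith, ?_⟩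
  intro ε hε hε1
  simp only
  have hKe : 0 < ε ^ K' := pow_pos hε _
  have hKe1 : ε ^ K' ≤ 1 := pow_le_one₀ hε.le hε1
  have eC : A' / (ε / D) ^ K' = X / ε ^ K' := by
    rw [hX, div_pow]
    field_simp
  rw [eC]
  have hinv : 1 ≤ 1 / ε ^ K' := by
    rw [le_div_iff₀ hKe, one_mul]
    exact hKe1
  have hXe : X / ε ^ K' = X * (1 / ε ^ K') := by ring
  -- Q
  have hQ1 : (m + 1) * C ^ 2 + X / ε ^ K' * C ^ 2 + 1 ≤ A₁ / ε ^ K' := by
    have e : A₁ / ε ^ K' = ((m + 1) * C ^ 2 + 1) * (1 / ε ^ K') + C ^ 2 * X * (1 / ε ^ K') := by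
      rw [hA₁]
      ring
    rw [e, hXe]
    have h1 : ((m + 1) * C ^ 2 + 1) * 1 ≤ ((m + 1) * C ^ 2 + 1) * (1 / ε ^ K') :=
      mul_le_mul_of_nonneg_left hinv (by positivity)
    nlinarith
  have hQ0 : 0 ≤ (m + 1) * C ^ 2 + X / ε ^ K' * C ^ 2 + 1 := by positivity
  have hAle : ∀ {a : ℝ}, a ≤ A₁ + A₂ + A₃ + (4 * C + 12) →
      a / ε ^ (6 * K' + 6) ≤ (A₁ + A₂ + A₃ + (4 * C + 12)) / ε ^ (6 * K' + 6) := fun h =>
    div_le_div_of_nonneg_right h (pow_pos hε _).le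
  -- d
  have hd1 : ε ^ (K' + 1) / A₂ ≤ ε / D / (C ^ 2 * (X / ε ^ K' + 1)) := by
    have h1 : C ^ 2 * (X / ε ^ K' + 1) ≤ C ^ 2 * (X + 1) / ε ^ K' := by
      have e : C ^ 2 * (X + 1) / ε ^ K' = C ^ 2 * (X / ε ^ K') + C ^ 2 * (1 / ε ^ K') := by ring
      rw [e]
      nlinarith
    have h2 : 0 < C ^ 2 * (X / ε ^ K' + 1) := by positivity
    calc ε ^ (K' + 1) / A₂ = ε / D / (C ^ 2 * (X + 1) / ε ^ K') := by
          rw [hA₂, pow_succ]
          field_simp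
      _ ≤ _ := div_le_div_of_nonneg_left (by positivity) h2 h1
  have hd0 : 0 < ε / D / (C ^ 2 * (X / ε ^ K' + 1)) := by positivity
  refine ⟨?_, ?_, ?_⟩
  · refine hQ1.trans ((EDT_pow hε hε1 hA₁0.le (by omega)).trans (hAle ?_))
    linarith
  · refine le_trans ?_ hd1
    have h1 : ε ^ (6 * K' + 6) ≤ ε ^ (K' + 1) := pow_le_pow_of_le_one hε.le hε1 (by omega)
    calc ε ^ (6 * K' + 6) / (A₁ + A₂ + A₃ + (4 * C + 12)) ≤ ε ^ (6 * K' + 6) / A₂ :=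
          div_le_div_of_nonneg_left (pow_pos hε _).le hA₂0 (by linarith)
      _ ≤ _ := div_le_div_of_nonneg_right h1 hA₂0.le
  · refine le_trans ?_ (hAle (a := A₃) (by linarith))
    have h1 : (4 * ((m + 1) * C ^ 2 + X / ε ^ K' * C ^ 2 + 1) * AL * (1 + sv)) ^ 2 ≤
        (4 * (A₁ / ε ^ K') * AL * (1 + sv)) ^ 2 := by
      refine pow_le_pow_left₀ (by positivity) ?_ 2
      refine mul_le_mul_of_nonneg_right (mul_le_mul_of_nonneg_right ?_ hAL) (by linarith)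
      linarith
    have h2 : (ε / D) ^ 2 * (ε ^ (K' + 1) / A₂) ^ 4 ≤
        (ε / D) ^ 2 * (ε / D / (C ^ 2 * (X / ε ^ K' + 1))) ^ 4 :=
      mul_le_mul_of_nonneg_left (pow_le_pow_left₀ (by positivity) hd1 4) (by positivity)
    have h3 : 0 < (ε / D) ^ 2 * (ε ^ (K' + 1) / A₂) ^ 4 := by positivity
    calc AP * (4 * ((m + 1) * C ^ 2 + X / ε ^ K' * C ^ 2 + 1) * AL * (1 + sv)) ^ 2 /
          ((ε / D) ^ 2 * (ε / D / (C ^ 2 * (X / ε ^ K' + 1))) ^ 4)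
        ≤ AP * (4 * (A₁ / ε ^ K') * AL * (1 + sv)) ^ 2 / ((ε / D) ^ 2 * (ε ^ (K' + 1) / A₂) ^ 4) :=
          div_le_div₀ (by positivity) (mul_le_mul_of_nonneg_left h1 hAP) h3 h2
      _ = A₃ / ε ^ (6 * K' + 6) := by
          rw [hA₃]
          have e1 : ε ^ (6 * K' + 6) = ε ^ 2 * (ε ^ K') ^ 2 * (ε ^ (K' + 1)) ^ 4 := by
            rw [← pow_mul, ← pow_mul, ← pow_add, ← pow_add]
            congr 1
            ring
          rw [e1]
          field_simp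

theorem EDT (hBMP : BMP_stmt) (hYNM : YNM_stmt) (hGKL : GKL_stmt) (hWBA : WBA_stmt) (hSRK : SRK_stmt)
    (hLPA : LPA_stmt) (hAKR : AKR_stmt) (hDSC : DSC_stmt) (hUTR : UTR_stmt) (hPTN : PTN_stmt)
    (hLIQ : LIQ_stmt) (hEDM : EDM_stmt) (hENG : ENG_stmt) : EDT_stmt := by
  obtain ⟨κ₁, C₁, hBF⟩ := hBMP
  obtain ⟨C, hC, hW⟩ := hWBA κ₁ C₁ hBF
  obtain ⟨K', hENG'⟩ := hENG
  refine ⟨6 * K' + 6, fun Γ F hΓ hF => ?_⟩
  obtain ⟨m, hm1, hmh⟩ := hEDM Γ F hΓ hF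
  obtain ⟨A', hA', hneg'⟩ := hENG' κ₁ C₁ hBF Γ F hΓ hF
  obtain ⟨AP, hAP, hpt⟩ := hPTN Γ F hF
  obtain ⟨AL, hAL, hli⟩ := hLIQ κ₁ C₁ hBF Γ F hΓ hF
  obtain ⟨hct, -, hvol0, hvol, -, -⟩ := A_DOB Γ F hΓ hF
  set sv : ℝ := Real.sqrt (volume F).toReal with hsv
  have hsv0 : 0 ≤ sv := Real.sqrt_nonneg _
  obtain ⟨A, hA1, hA2, hnum⟩ := EDT_num (K' := K') (sv := sv) hC hm1 hA' (AP := AP) (AL := AL) (by linarith)
    (by linarith) hsv0
  refine ⟨A, hA1, fun h hLip ε hε hε1 => ?_⟩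
  have hh : Inv Γ h := hLip.Inv
  have hm : ∀ z, |h z| ≤ m := hmh h hLip
  have hm0 : 0 ≤ m := by linarith
  have hC0 : 0 ≤ C := zero_le_one.trans hC
  have hC2 : 1 ≤ C ^ 2 := by nlinarith
  set D : ℝ := 10 * C ^ 2 * (1 + m) with hD
  have hD1 : 1 ≤ D := by
    rw [hD]
    nlinarith [mul_nonneg (sq_nonneg C) hm0]
  set δ₁ : ℝ := ε / D with hδ₁
  have hδ0 : 0 < δ₁ := div_pos hε (by linarith)
  have hδ1 : δ₁ ≤ 1 := by
    rw [hδ₁, div_le_one (by linarith)]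
    exact hε1.trans hD1
  have hδε : D * δ₁ ≤ ε := by
    rw [hδ₁, mul_div_cancel₀ _ (by linarith : D ≠ 0)]
  have hneg := hneg' h hLip δ₁ hδ0 hδ1
  obtain ⟨hnQ, hnd, hnA⟩ := hnum ε hε hε1
  set C' : ℝ := A' / δ₁ ^ K' with hC'def
  have hC' : 0 ≤ C' := by positivity
  set B : ℝ := C ^ 2 * (C' + 1) with hB
  have hB1 : 1 ≤ B := by nlinarith
  set d : ℝ := δ₁ / B with hd
  have hd0 : 0 < d := div_pos hδ0 (by linarith)
  have hdB : d * B = δ₁ := div_mul_cancel₀ _ (by linarith : B ≠ 0)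
  have hd1 : d ≤ 1 := by
    rw [hd, div_le_one (by linarith)]
    linarith
  set K : ℝ := (m + 1) * C ^ 2 + C' * C ^ 2 + 1 with hK
  have hK1 : 1 ≤ K := by
    rw [hK]
    have : 0 ≤ (m + 1) * C ^ 2 + C' * C ^ 2 := by positivity
    linarith
  set E₀ : ℝ := 4 * K * AL * (1 + sv) with hE₀
  have hE₀1 : 1 ≤ E₀ := by
    rw [hE₀]
    have h1 : 1 ≤ K * AL := by nlinarith
    have h2 : 0 ≤ K * AL * sv := by positivity
    nlinarith
  set A₀ : ℝ := AP * E₀ ^ 2 / (δ₁ ^ 2 * d ^ 4) with hA₀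
  have hA₀0 : 0 ≤ A₀ := by positivity
  replace hnA : A₀ ≤ A / ε ^ (6 * K' + 6) := hnA
  refine ⟨K, d, hK1, hnQ, hnd, hd1, ?_⟩
  intro b μ₀ hb hμ0 hμb
  obtain ⟨p, hp, hWp⟩ := hW b d hb hd0 hd1 μ₀ hμ0 hμb
  simp only at hp hWp
  set η : ℝ := d / (2 + b) ^ 2 with hη
  set τ : ℝ := η ^ 3 with hτ
  have h2b : 0 < (2 + b) ^ 2 := by positivity
  have h2b4 : 4 ≤ (2 + b) ^ 2 := by nlinarith
  have hη0 : 0 < η := div_pos hd0 h2b
  have hη1 : η ≤ 1 := by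
    rw [hη, div_le_one h2b]
    linarith
  have hτ0 : 0 < τ := pow_pos hη0 3
  have hτ1 : τ ≤ 1 := pow_le_one₀ hη0.le hη1
  have hlog : (2 : ℝ) / 3 ≤ Real.log (2 + b) := by
    have h1 : Real.log 2 ≤ Real.log (2 + b) := Real.log_le_log (by norm_num) (by linarith)
    have h2 := Real.log_two_gt_d9
    linarith
  have hwt : 0 ≤ wt μ₀ := by
    unfold wt
    positivity
  set w : ℝ := Real.sqrt (wt μ₀) with hw
  have hw0 : 0 ≤ w := Real.sqrt_nonneg _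
  have hw2 : w ^ 2 = wt μ₀ := Real.sq_sqrt hwt
  obtain ⟨op1, op2, hrep⟩ := DET_ops hYNM hSRK hLPA hBF hΓ hF (p := p) (μ₀ := μ₀) hτ0 hτ1 hη0 hη1 hw0 hC0
    (fun V _ _ _ ρ χ hχ => by
      rw [hw2]
      exact (hWp Γ F V ρ hΓ hF).1 χ hχ)
  set R : ℝ := 2 * (p.natDegree * Real.sqrt τ + 2) with hR
  set S₁ : ℍ → ℍ → ℝ := Sk (fm κ₁ τ) p (fm κ₁ η) (fm κ₁ η) with hS₁
  set S₂ : ℍ → ℍ → ℝ := Sk (fm κ₁ τ) p (fun t => LL (fm κ₁ η) t - μ₀ * fm κ₁ η t) (fm κ₁ η) with hS₂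
  set a : ℍ → ℍ → ℝ := fun z w => aS (fun v => h v - δ₁) S₁ z w - C' * wt μ₀ * aS (fun _ => 1) S₂ z w with ha
  have hh' : Inv Γ (fun v => h v - δ₁) := ⟨hh.1.sub continuous_const, fun γ z => by simp only [hh.2 γ z]⟩
  have h1' : Inv Γ (fun _ => (1 : ℝ)) := ⟨continuous_const, fun γ z => rfl⟩
  obtain ⟨p1, r1, -, f1⟩ := hAKR Γ F _ S₁ R hΓ hF hh' op1.cont (fun γ => op1.inv γ) op1.prop
  obtain ⟨p2, r2, -, f2⟩ := hAKR Γ F _ S₂ R hΓ hF h1' op2.cont (fun γ => op2.inv γ) op2.prop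
  have hPK : PKer Γ a := FI1_pker p1 p2 (C' * wt μ₀)
  have hprop : ∀ z w, a z w ≠ 0 → dist z w ≤ 2 * R := by
    intro z w' hne
    by_contra hlt
    have e1 : aS (fun v => h v - δ₁) S₁ z w' = 0 := by
      by_contra h0
      exact hlt (r1 z w' h0)
    have e2 : aS (fun _ => 1) S₂ z w' = 0 := by
      by_contra h0
      exact hlt (r2 z w' h0)
    apply hne
    rw [ha]
    simp only [e1, e2, mul_zero, sub_zero]
  have h2R : 2 * R ≤ A * Real.log (2 + b) := by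
    have e : 2 * R = 4 * (p.natDegree * Real.sqrt τ) + 8 := by
      rw [hR]
      ring
    rw [e]
    have h1 : (4 * C + 12) * Real.log (2 + b) ≤ A * Real.log (2 + b) :=
      mul_le_mul_of_nonneg_right hA2 (by linarith)
    nlinarith
  -- cells
  set ζ : ℝ := δ₁ * η ^ 2 / E₀ with hζ
  have hη2 : η ^ 2 ≤ 1 := pow_le_one₀ hη0.le hη1
  have hζ0 : 0 < ζ := by positivity
  have hζ1 : ζ ≤ 1 := by
    rw [hζ, div_le_one (by linarith)]
    have : δ₁ * η ^ 2 ≤ 1 * 1 := mul_le_mul hδ1 hη2 (by positivity) zero_le_one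
    linarith
  obtain ⟨k, c, pt, hk, hcm, hpc, hcu, hcd, hdiam⟩ := hpt ζ hζ0 hζ1
  set Sset : Set Γ := {γ : Γ | ∃ z ∈ F, ∃ w ∈ F, dist z (γ • w) ≤ 2 * R} with hSset
  have hfin : Sset.Finite := DET_S hΓ hF (2 * R)
  set S : Finset Γ := hfin.toFinset with hS
  have hmemS : ∀ γ : Γ, γ ∈ S ↔ ∃ z ∈ F, ∃ w ∈ F, dist z (γ • w) ≤ 2 * R := by
    intro γ
    rw [hS, Set.Finite.mem_toFinset, hSset, mem_setOf]
  have hSinv : ∀ γ ∈ S, γ⁻¹ ∈ S := fun γ hγ => (hmemS _).2 (DET_Sinv γ ((hmemS γ).1 hγ))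
  have hSa : ∀ (γ : Γ) (z w : ℍ), z ∈ F → w ∈ F → a z (γ • w) ≠ 0 → γ ∈ S :=
    fun γ z w' hz hw' hne => (hmemS γ).2 ⟨z, hz, w', hw', hprop _ _ hne⟩
  obtain ⟨hSA, hSup, hform, hreg⟩ := hDSC Γ F a S k c hΓ hF hPK hSinv hSa hcm hcu hcd
  set M : Mat k Γ := mI a S c with hM
  -- the form of `a`
  have hcore : ∀ (V : Type) [NormedAddCommGroup V] [InnerProductSpace ℂ V] [CompleteSpace V]
      (ρ : Γ →* (V ≃ₗᵢ[ℂ] V)) (f : ℍ → V), SecB ρ f → |DET_q F a f| ≤ K * DET_N F f ^ 2 := by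
    intro V _ _ _ ρ f hf
    have hc := (DET_core (V := V) (ρ := ρ) hAKR hΓ hF op1 op2 hC0 hw0 hC' (c := C' * wt μ₀) (by rw [hw2]) hh hm
      hδ0.le hδ1).2 f (fun _ => 0) hf DET_zero
    have z1 : DET_q F a (fun _ : ℍ => (0 : V)) = 0 := by
      unfold DET_q
      simp
    have z2 : DET_N F (fun _ : ℍ => (0 : V)) = 0 := by
      unfold DET_N
      simp
    have z3 : DET_N F (fun z => f z - (0 : V)) = DET_N F f := by
      simp only [sub_zero]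
    change |DET_q F a f - DET_q F a (fun _ => 0)| ≤ _ at hc
    rw [z1, z2, z3, sub_zero, add_zero] at hc
    refine hc.trans ?_
    rw [hK]
    nlinarith [sq_nonneg (DET_N F f)]
  have hUnB : UnB M K := by
    intro V _ _ _ ρ v
    obtain ⟨φ, hφ, hφN, hφq⟩ := (hform V ρ).1 v
    rw [hφq]
    have h1 := hcore V ρ φ hφ
    refine h1.trans ?_
    rw [DET_N_sq]
    exact mul_le_mul_of_nonneg_left hφN (by linarith)
  have hnegM : ∀ e : Fin k → MonoidAlgebra ℂ Γ, (∑ i, ∑ j, ip (e i) (M i j * e j)).re ≤ 0 := by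
    intro e
    obtain ⟨f₁, f₂, s1, s2, ⟨mm, hmm⟩, c1, c2, he⟩ := hreg e
    rw [he]
    have n1 := hneg μ₀ τ η p hμ0 hτ0 hτ1 hη0 hη1 f₁ s1 ⟨mm, fun z => (hmm z).1⟩ c1
    have n2 := hneg μ₀ τ η p hμ0 hτ0 hτ1 hη0 hη1 f₂ s2 ⟨mm, fun z => (hmm z).2⟩ c2
    exact add_nonpos n1 n2
  obtain ⟨hRegB, hSAP, hUnBP⟩ := (hUTR Γ k M K hSA hUnB (by linarith)).2 hnegM
  have hFne := DET_ne hF
  refine ⟨k, M + K • (1 : Mat k Γ), ?_, ?_, hSAP, hUnBP, hRegB, ?_, ?_⟩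
  · -- k ≥ 1
    rw [Nat.one_le_iff_ne_zero]
    rintro rfl
    obtain ⟨z, hz⟩ := hFne
    rw [← hcu] at hz
    obtain ⟨i, -⟩ := mem_iUnion.1 hz
    exact i.elim0
  · -- bound of k
    refine hk.trans ?_
    have e : AP / ζ ^ 2 = A₀ * (2 + b) ^ 8 := by
      rw [hζ, hA₀, hη]
      field_simp
    rw [e]
    exact mul_le_mul_of_nonneg_right hnA (by positivity)
  · refine DET_sup M K hSup ?_ ?_
    · intro γ hγ
      obtain ⟨z, hz, w', hw', hdd⟩ := (hmemS γ).1 hγ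
      exact ⟨z, hz, w', hw', hdd.trans h2R⟩
    · obtain ⟨z, hz⟩ := hFne
      refine ⟨z, hz, z, hz, ?_⟩
      rw [one_smul, dist_self]
      exact mul_nonneg (by linarith) (by linarith)
  · intro V _ _ _ ρ hRep φ μ hφ hμ hμb' hμμ
    have hφC := DET_eig ρ hφ
    have hφB := DET_CB hΓ hF hφC
    obtain ⟨hfC, hNf⟩ := DET_Q hYNM hBF hΓ hF hη0 hφB
    set f := conv (fm κ₁ η) φ with hf
    have hfB := DET_CB hΓ hF hfC
    have hN0 := DET_N_nonneg (F := F) φ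
    -- `f - φ`
    have hfφ : DET_N F (fun z => f z - φ z) ≤ d * DET_N F φ := by
      have h1 := A_EIG Γ F (fm κ₁) V ρ φ μ η hΓ hF hBF.fam hη0 ((A_CA1 V).2.1 φ 2 ∞ (WithTop.coe_le_coe.2 (le_top : (2 : ℕ∞) ≤ ⊤)) hφ.1) hφ.2.1 hφ.2.2
      have h2 : μ * η / 2 ≤ d := by
        rw [hη]
        have h3 : μ * (d / (2 + b) ^ 2) / 2 = d * (μ / (2 * (2 + b) ^ 2)) := by
          field_simp
        rw [h3]
        refine mul_le_of_le_one_right hd0.le ?_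
        rw [div_le_one (by positivity)]
        nlinarith
      refine (DET_N_le _ (x := μ * η / 2 * DET_N F φ) (by positivity) ?_).trans (mul_le_mul_of_nonneg_right h2 hN0)
      rw [mul_pow, DET_N_sq]
      exact h1
    -- `u₀`
    have hrφ := hrep V ρ φ hφB
    obtain ⟨w1, w2⟩ := (hWp Γ F V ρ hΓ hF).2 φ μ hφ hμ hμb' hμμ
    have h1 : DET_N F (fun v => (∫ z : ℍ, S₁ z v • φ z) - φ v) ≤ C * d * DET_N F φ := by
      refine DET_N_le _ (by positivity) ?_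
      rw [mul_pow, DET_N_sq]
      simp_rw [hrφ.1]
      exact w1
    have h2 : w * DET_N F (fun v => ∫ z : ℍ, S₂ z v • φ z) ≤ C * d * DET_N F φ := by
      refine le_of_sq_le_sq ?_ (by positivity)
      rw [mul_pow, mul_pow (C * d), DET_N_sq, DET_N_sq, hw2]
      simp_rw [hrφ.2]
      exact w2
    -- the section `E`
    obtain ⟨E, hE, hEc⟩ := DET_cell hF hct ρ c hcm hcu hcd (fun i => f (pt i))
    have h3 : DET_N F (fun z => f z - E z) ≤ δ₁ / (4 * K) * DET_N F φ := by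
      have hpw : ∀ z ∈ F, ‖f z - E z‖ ^ 2 ≤ (AL / η ^ 2 * ζ * DET_N F φ) ^ 2 := by
        intro z hz
        rw [← hcu] at hz
        obtain ⟨i, hi⟩ := mem_iUnion.1 hz
        refine pow_le_pow_left₀ (norm_nonneg _) ?_ 2
        rw [hEc i z hi]
        have hdz := hdiam i z hi (pt i) (hpc i)
        refine (hli V ρ φ η z (pt i) hη0 hη1 hφB (hdz.trans hζ1)).trans ?_
        change AL / η ^ 2 * dist z (pt i) * DET_N F φ ≤ _
        refine mul_le_mul_of_nonneg_right ?_ hN0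
        exact mul_le_mul_of_nonneg_left hdz (by positivity)
      have hint : ∫ z in F, ‖f z - E z‖ ^ 2 ≤ (AL / η ^ 2 * ζ * DET_N F φ) ^ 2 * (volume F).toReal := by
        have i1 : IntegrableOn (fun z => ‖f z - E z‖ ^ 2) F volume := by
          obtain ⟨x1, x2⟩ := DET_B_norm (DET_B_sub (DET_SB hfB) (DET_SB hE))
          simpa [sq] using DET_mulint hvol x1 x2 x1 x2
        have i2 : IntegrableOn (fun _ : ℍ => (AL / η ^ 2 * ζ * DET_N F φ) ^ 2) F volume := integrableOn_const hvol.ne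
        refine (setIntegral_mono_on i1 i2 hF.meas hpw).trans ?_
        rw [setIntegral_const, smul_eq_mul, mul_comm]
        exact le_refl _
      have e : AL / η ^ 2 * ζ * sv ≤ δ₁ / (4 * K) := by
        have e1 : AL / η ^ 2 * ζ * sv = δ₁ / (4 * K) * (sv / (1 + sv)) := by
          rw [hζ, hE₀]
          field_simp
        rw [e1]
        refine mul_le_of_le_one_right (by positivity) ?_
        rw [div_le_one (by linarith)]
        linarith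
      refine (DET_N_le _ (x := AL / η ^ 2 * ζ * sv * DET_N F φ) (by positivity) ?_).trans
        (mul_le_mul_of_nonneg_right e hN0)
      refine hint.trans (le_of_eq ?_)
      have : sv ^ 2 = (volume F).toReal := Real.sq_sqrt ENNReal.toReal_nonneg
      rw [← this]
      ring
    have h4 : DET_q F a E ≤ d * DET_N F E ^ 2 := by
      have hconst : ∀ i, ∀ z ∈ c i, ∀ w ∈ c i, E z = E w := by
        intro i z hz w' hw'
        rw [hEc i z hz, hEc i w' hw']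
      obtain ⟨v, hv1, hv2⟩ := (hform V ρ).2 E hE hconst
      unfold DET_q
      rw [← hv2, DET_N_sq, ← hv1]
      exact DET_rep ρ M K d (by linarith) hRep v
    have hfinal := DET_eigen hAKR hΓ hF op1 op2 hC hw0 hC' (c := C' * wt μ₀) (by rw [hw2]) hh hm hδ0.le hδ1 hd0.le
      (by rw [← hB, hdB]) hK.symm hφC hfC hE hNf hfφ h1 h2 h3 h4
    refine hfinal.trans ?_
    refine mul_le_mul_of_nonneg_right ?_ (integral_nonneg fun z => by positivity)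
    rw [← hD]
    exact hδε

end Pool.Agent.QX
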